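import Pool.Agent.UL3.Stmts

/-! Row POL of squad UL3. -/

set_option autoImplicit false

namespace Pool.Agent.UL3.H55

open Pool.Agent.UL3 MeasureTheory Set Metric

theorem inner_int (g : ℝ → ℝ) (n : ℕ) :
    ∫ r : Ioi (0 : ℝ), g r ∂(Measure.volumeIoiPow n) = ∫ y in Ioi (0 : ℝ), y ^ n * g y := by
  simp only [Measure.volumeIoiPow, ENNReal.ofReal]
  rw [integral_withDensity_eq_integral_smul,
    integral_subtype_comap measurableSet_Ioi fun a ↦ Real.toNNReal (a ^ n) • g a,
    setIntegral_congr_fun measurableSet_Ioi fun x hx ↦ ?_]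
  · rw [NNReal.smul_def, Real.coe_toNNReal _ (pow_nonneg (le_of_lt hx) _), smul_eq_mul]
  · exact (measurable_subtype_coe.pow_const _).real_toNNReal

theorem ray (K : Set E3) (a b : ℝ) (ψ : ℝ → ℝ) (hK : IsCompact K) (hc : Convex ℝ K) (ha : 0 < a)
    (haK : closedBall 0 a ⊆ K) (hKb : K ⊆ closedBall 0 b)
    (hρ : ∀ ρ ∈ Icc a b, ∫ r in (0 : ℝ)..ρ, r ^ 2 * ψ r ≤ 0) (θ : E3) (hθ : ‖θ‖ = 1) :
    ∫ y in Ioi (0 : ℝ), y ^ 2 * K.indicator (fun x => ψ ‖x‖) (y • θ) ≤ 0 := by
  have hcont : Continuous (fun y : ℝ => y • θ) := continuous_id.smul continuous_const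
  have hnorm : ∀ y : ℝ, 0 ≤ y → ‖y • θ‖ = y := by
    intro y hy
    rw [norm_smul, hθ, mul_one, Real.norm_of_nonneg hy]
  set S : Set ℝ := Icc 0 b ∩ (fun y : ℝ => y • θ) ⁻¹' K with hS
  have hScomp : IsCompact S := isCompact_Icc.inter_right (hK.isClosed.preimage hcont)
  have hKle : ∀ y : ℝ, 0 ≤ y → y • θ ∈ K → y ≤ b := by
    intro y hy h
    have h1 := hKb h
    rw [mem_closedBall, dist_zero_right, hnorm y hy] at h1
    exact h1
  have haθ : a • θ ∈ K := by
    apply haK
    rw [mem_closedBall, dist_zero_right, hnorm a ha.le]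
  have haS : a ∈ S := ⟨⟨ha.le, hKle a ha.le haθ⟩, haθ⟩
  have hρS : sSup S ∈ S := hScomp.sSup_mem ⟨a, haS⟩
  set ρ := sSup S with hρdef
  have haρ : a ≤ ρ := le_csSup hScomp.bddAbove haS
  have hρpos : 0 < ρ := lt_of_lt_of_le ha haρ
  have hmem : ∀ y : ℝ, 0 < y → (y • θ ∈ K ↔ y ≤ ρ) := by
    intro y hy
    constructor
    · intro h
      exact le_csSup hScomp.bddAbove ⟨⟨hy.le, hKle y hy.le h⟩, h⟩
    · intro h
      have h0 : (0 : E3) ∈ K := haK (by simp [ha.le])
      have h1 : (1 - y / ρ) • (0 : E3) + (y / ρ) • (ρ • θ) ∈ K := by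
        apply hc h0 hρS.2
        · rw [sub_nonneg, div_le_one hρpos]
          exact h
        · positivity
        · ring
      rw [smul_zero, zero_add, smul_smul, div_mul_cancel₀ _ hρpos.ne'] at h1
      exact h1
  have h1 : ∫ y in Ioi (0 : ℝ), y ^ 2 * K.indicator (fun x => ψ ‖x‖) (y • θ) =
      ∫ y in Ioi (0 : ℝ), (Iic ρ).indicator (fun y => y ^ 2 * ψ y) y := by
    apply setIntegral_congr_fun measurableSet_Ioi
    intro y hy
    have hy' : 0 < y := hy
    by_cases h : y ≤ ρ
    · simp only [indicator_of_mem ((hmem y hy').mpr h), indicator_of_mem (mem_Iic.mpr h),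
        hnorm y hy'.le]
    · have h2 : y • θ ∉ K := fun h' => h ((hmem y hy').mp h')
      simp only [indicator_of_notMem h2, indicator_of_notMem (fun h' => h (mem_Iic.mp h')), mul_zero]
  rw [h1, setIntegral_indicator measurableSet_Iic, Ioi_inter_Iic,
    ← intervalIntegral.integral_of_le hρpos.le]
  exact hρ ρ ⟨haρ, hρS.1.2⟩

/-- **POL** -/
theorem pol : PolStmt := by
  intro K a b ψ hK hc ha haK hKb hψ hρ
  have hKm : MeasurableSet K := hK.isClosed.measurableSet
  have hdim : Module.finrank ℝ E3 = 3 := by simp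
  have hint0 : Integrable (fun x : E3 => (Iic b).indicator ψ ‖x‖) := by
    rw [integrable_fun_norm_addHaar (μ := (volume : Measure E3)) (f := (Iic b).indicator ψ), hdim]
    have h1 : (fun y : ℝ => y ^ (3 - 1) • (Iic b).indicator ψ y) =
        (Iic b).indicator (fun y => y ^ 2 * ψ y) := by
      ext y
      by_cases h : y ∈ Iic b
      · simp only [indicator_of_mem h, smul_eq_mul]
      · simp only [indicator_of_notMem h, smul_zero]
    rw [h1, IntegrableOn, integrable_indicator_iff measurableSet_Iic, IntegrableOn,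
      Measure.restrict_restrict measurableSet_Iic]
    exact (hψ.integrableOn_Icc (a := 0) (b := b)).mono_set
      (fun y hy => ⟨le_of_lt hy.2, hy.1⟩)
  have hintK : IntegrableOn (fun x : E3 => ψ ‖x‖) K := by
    apply (hint0.integrableOn (s := K)).congr_fun _ hKm
    intro x hx
    have h1 := hKb hx
    rw [mem_closedBall, dist_zero_right] at h1
    exact indicator_of_mem (mem_Iic.mpr h1) _
  refine ⟨hintK, ?_⟩
  have hF : Integrable (K.indicator (fun x : E3 => ψ ‖x‖)) :=
    (integrable_indicator_iff hKm).mpr hintK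
  rw [← integral_indicator hKm]
  set F : E3 → ℝ := K.indicator (fun x : E3 => ψ ‖x‖) with hFdef
  let F' : sphere (0 : E3) 1 × Ioi (0 : ℝ) → ℝ := fun p => F ((p.2 : ℝ) • (p.1 : E3))
  have hF' : ∀ x : ({(0 : E3)}ᶜ : Set E3), F' (homeomorphUnitSphereProd E3 x) = F x := by
    intro x
    have hx : ‖(x : E3)‖ ≠ 0 := by
      rw [norm_ne_zero_iff]
      exact x.2
    show F _ = F _
    rw [homeomorphUnitSphereProd_apply_snd_coe, homeomorphUnitSphereProd_apply_fst_coe,
      smul_inv_smul₀ hx]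
  have e1 : ∫ x, F x = ∫ x : ({(0 : E3)}ᶜ : Set E3), F x ∂((volume : Measure E3).comap (↑)) := by
    rw [integral_subtype_comap (measurableSet_singleton _).compl F, restrict_compl_singleton]
  have e2 : ∫ x : ({(0 : E3)}ᶜ : Set E3), F x ∂((volume : Measure E3).comap (↑)) =
      ∫ p, F' p ∂((volume : Measure E3).toSphere.prod
        (Measure.volumeIoiPow (Module.finrank ℝ E3 - 1))) := by
    rw [← (volume : Measure E3).measurePreserving_homeomorphUnitSphereProd.integral_comp
        (Homeomorph.measurableEmbedding _) F']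
    simp only [hF']
  have hi : Integrable F' ((volume : Measure E3).toSphere.prod
        (Measure.volumeIoiPow (Module.finrank ℝ E3 - 1))) := by
    rw [← (volume : Measure E3).measurePreserving_homeomorphUnitSphereProd.integrable_comp_emb
      (Homeomorph.measurableEmbedding _)]
    have h1 : (F' ∘ (homeomorphUnitSphereProd E3)) = fun x : ({(0 : E3)}ᶜ : Set E3) => F x := by
      ext x
      exact hF' x
    rw [h1]
    have h2 : IntegrableOn F ({(0 : E3)}ᶜ) := hF.integrableOn
    rw [integrableOn_iff_comap_subtypeVal (measurableSet_singleton _).compl] at h2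
    exact h2
  rw [e1, e2, integral_prod F' hi]
  apply integral_nonpos
  intro θ
  show ∫ y : Ioi (0 : ℝ), F' (θ, y) ∂(Measure.volumeIoiPow (Module.finrank ℝ E3 - 1)) ≤ 0
  have h3 := inner_int (fun y : ℝ => F (y • (θ : E3))) (Module.finrank ℝ E3 - 1)
  have h4 : ∫ y : Ioi (0 : ℝ), F' (θ, y) ∂(Measure.volumeIoiPow (Module.finrank ℝ E3 - 1)) =
      ∫ y in Ioi (0 : ℝ), y ^ (Module.finrank ℝ E3 - 1) * F (y • (θ : E3)) := h3
  rw [h4, hdim]
  exact ray K a b ψ hK hc ha haK hKb hρ θ (by simp)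

end Pool.Agent.UL3.H55
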